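import Pool.Agent.N242.PC.Stm

/-!
# Project PC, part FLT (helper664, for helper242): flatness at nonsingular points

Adapted from `Pool/Agent/N713/NT/FLA.lean` of helper713.
-/

set_option autoImplicit false

open Metric Set Filter Topology

namespace Pool.Agent.N664.PC.FLT

open Pool.Agent.N242.PC

universe u

theorem t_FLT (h : S_SET.{u}) : S_FLT.{u} := by
  classical
  intro X _ _ 𝒯 hB T hT z hz hS
  unfold SingT at hS
  push Not at hS
  obtain ⟨ρ, hρ, hN⟩ := hS
  obtain ⟨ρ', ⟨h1, h2⟩, h3⟩ : ∃ ρ' : ℝ, ((∀ T' ∈ {T | T ∈ 𝒯 ∧ (T ∩ ball z ρ).Nonempty},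
      z ∉ T' → ¬ (T' ∩ ball z ρ').Nonempty) ∧ ρ' ≤ ρ) ∧ 0 < ρ' := by
    have e1 : ∀ᶠ ρ' in 𝓝[>] (0:ℝ), ∀ T' ∈ {T | T ∈ 𝒯 ∧ (T ∩ ball z ρ).Nonempty},
        z ∉ T' → ¬ (T' ∩ ball z ρ').Nonempty := by
      rw [Filter.eventually_all_finite hN]
      intro T' hT'
      by_cases hzT : z ∈ T'
      · exact Eventually.of_forall fun r hr => absurd hzT hr
      · obtain ⟨r, hr, hr2⟩ := Metric.isOpen_iff.1 (hB.closed T' hT'.1).isOpen_compl z hzT
        filter_upwards [mem_nhdsWithin_of_mem_nhds (Iic_mem_nhds hr)] with s hs _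
        rintro ⟨y, hy1, hy2⟩
        exact hr2 (ball_subset_ball hs hy2) hy1
    have e2 : ∀ᶠ ρ' in 𝓝[>] (0:ℝ), ρ' ≤ ρ := mem_nhdsWithin_of_mem_nhds (Iic_mem_nhds hρ)
    exact ((e1.and e2).and self_mem_nhdsWithin).exists
  have hsep := fun T' (hT' : T' ∈ 𝒯) (hne : T ≠ T') => h X 𝒯 hB T hT T' hT' hne
  choose! f β hf1 hf2 hf3 hf4 using hsep
  obtain ⟨c, hc⟩ := hB.int T hT
  refine ⟨hN.toFinset.image f, ρ' / 2, by positivity, fun v hv hvε => ?_⟩
  have key : ∀ s : ℝ, 0 < s → s * ‖c - z‖ < ρ' / 2 → z + v + s • (c - z) ∈ T := by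
    intro s hs hs2
    obtain ⟨T'', hT'', hy⟩ : ∃ T'' ∈ 𝒯, z + v + s • (c - z) ∈ T'' := by
      have := hB.cov ▸ mem_univ (z + v + s • (c - z))
      exact mem_sUnion.1 this
    have hyz : z + v + s • (c - z) ∈ ball z ρ' := by
      rw [mem_ball, dist_eq_norm]
      have e1 : z + v + s • (c - z) - z = v + s • (c - z) := by abel
      rw [e1]
      have e2 := norm_add_le v (s • (c - z))
      rw [norm_smul, Real.norm_of_nonneg hs.le] at e2
      linarith
    have hmem : T'' ∈ {T | T ∈ 𝒯 ∧ (T ∩ ball z ρ).Nonempty} :=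
      ⟨hT'', _, hy, ball_subset_ball h2 hyz⟩
    have hz'' : z ∈ T'' := by
      by_contra hcon
      exact h1 T'' hmem hcon ⟨_, hy, hyz⟩
    by_cases hne : T = T''
    · rw [← hne] at hy
      exact hy
    · exfalso
      have a1 := hf1 T'' hT'' hne z hz
      have a2 := hf2 T'' hT'' hne z hz''
      have a3 := hf2 T'' hT'' hne _ hy
      have a4 := hf3 T'' hT'' hne c hc
      have a5 : f T'' v = 0 := hv _ (Finset.mem_image_of_mem f (hN.mem_toFinset.2 hmem))
      rw [map_add, map_add, a5, map_smul, map_sub, smul_eq_mul] at a3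
      have a6 : s * (f T'' c - f T'' z) < 0 := mul_neg_of_pos_of_neg hs (by linarith)
      linarith
  have ht : Tendsto (fun s : ℝ => z + v + s • (c - z)) (𝓝[>] 0) (𝓝 (z + v)) := by
    have hc : Continuous fun s : ℝ => z + v + s • (c - z) := by fun_prop
    have e1 := hc.tendsto 0
    simp only [zero_smul, add_zero] at e1
    exact e1.mono_left nhdsWithin_le_nhds
  refine (hB.closed T hT).mem_of_tendsto ht ?_
  have hc2 : Tendsto (fun s : ℝ => s * ‖c - z‖) (𝓝[>] 0) (𝓝 0) := by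
    have hc : Continuous fun s : ℝ => s * ‖c - z‖ := by fun_prop
    have e1 := hc.tendsto 0
    simp only [zero_mul] at e1
    exact e1.mono_left nhdsWithin_le_nhds
  filter_upwards [self_mem_nhdsWithin, hc2.eventually_lt_const (by positivity : 0 < ρ' / 2)]
    with s hs hs2
  exact key s hs hs2

end Pool.Agent.N664.PC.FLT
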